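import Pool.Agent.Q75.HM.Stm

/-! # Project HM (helper75), job HM-QBL: `qn` with another pole through the Moebius transform -/

set_option autoImplicit false

namespace Pool.Agent.Q162.HM

open Complex Set Metric Filter Topology Pool.Agent.Q75.HM Pool.Agent.Helper405.Riemann

open scoped Real ComplexConjugate

theorem bl_bl {c v : ℂ} (hc : ‖c‖ < 1) (hv : ‖v‖ < 1) : bl c (bl (-c) v) = v := by
  have h1 := bl_den_ne (c := -c) (w := v) (by rwa [norm_neg]) hv
  have h2 := bl_den_ne (c := c) (w := c) hc hc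
  have h3 := bl_den_ne (c := c) (w := bl (-c) v) hc (bl_norm_lt (by rwa [norm_neg]) hv)
  have h4 : bl (-c) v * (1 + conj c * v) = v + c := by
    rw [bl, map_neg]
    rw [map_neg] at h1
    have h5 : 1 + conj c * v = 1 - -conj c * v := by ring
    rw [h5, div_mul_cancel₀ _ h1]
    ring
  rw [bl, div_eq_iff h3]
  have h6 : 1 + conj c * v ≠ 0 := by
    rw [map_neg] at h1
    intro h
    apply h1
    rw [← h]
    ring
  apply mul_right_cancel₀ h6
  linear_combination (1 + v * conj c) * h4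

theorem t_QBL (hQB : S_QB) : S_QBL := by
  intro Ω p w z φ hD hp hw hz hφ
  obtain ⟨h1, h2, h3, h4⟩ := hφ
  have hlt : ∀ x ∈ Ω, ‖φ x‖ < 1 := fun x hx => by simpa using h2.mapsTo hx
  have hc : ‖φ w‖ < 1 := hlt w hw
  obtain ⟨g1, g2, g3, g4, -⟩ := comp_bl hD.1 hc h1 h2.mapsTo h2.injOn h3
  have hRM : RM Ω w (fun x => bl (φ w) (φ x)) := by
    refine ⟨g1, ⟨g2, g3, ?_⟩, g4, bl_self _⟩
    intro v hv
    have hv1 : ‖v‖ < 1 := by simpa using hv
    obtain ⟨x, hx, hx2⟩ := h2.surjOn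
      (show bl (-φ w) v ∈ ball (0 : ℂ) 1 by simpa using bl_norm_lt (by rwa [norm_neg]) hv1)
    refine ⟨x, hx, ?_⟩
    show bl (φ w) (φ x) = v
    rw [hx2, bl_bl hc hv1]
  exact (hQB Ω w z hD hw hz).1 _ hRM

end Pool.Agent.Q162.HM
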