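import Pool.Agent.Q75.HM.Stm

/-! # Project HM (helper75), job HM-QT: invariance of `qn` under translations and dilations -/

set_option autoImplicit false

namespace Pool.Agent.Q162.HM

open Complex Set Metric Filter Topology Pool.Agent.Q75.HM

open scoped Real ComplexConjugate Pointwise

theorem dslope_add (f : ℂ → ℂ) (a p z : ℂ) :
    dslope (fun w => f (w + a)) p z = dslope f (p + a) (z + a) := by
  by_cases h : z = p
  · subst h
    rw [dslope_same, dslope_same]
    exact deriv_comp_add_const _ _ _
  · rw [dslope_of_ne _ h, dslope_of_ne _ (fun h' => h (add_right_cancel h')), slope_def_field,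
      slope_def_field, add_sub_add_right_eq_sub]

theorem dslope_mul (f : ℂ → ℂ) {l : ℂ} (hl : l ≠ 0) (p z : ℂ) :
    dslope (fun w => f (l * w)) p z = l * dslope f (l * p) (l * z) := by
  by_cases h : z = p
  · subst h
    rw [dslope_same, dslope_same, deriv_comp_mul_left, smul_eq_mul]
  · have h2 : z - p ≠ 0 := sub_ne_zero.2 h
    rw [dslope_of_ne _ h, dslope_of_ne _ (fun h' => h (mul_left_cancel₀ hl h')), slope_def_field,
      slope_def_field, ← mul_sub]
    field_simp

theorem t_QT : S_QT := by
  refine ⟨fun Ω a p z => ?_, fun Ω l p z hl => ?_⟩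
  · unfold qn
    congr 1
    ext x
    constructor
    · rintro ⟨f, h1, h2, h3, rfl⟩
      refine ⟨fun w => f (w + a), ?_, ?_, h3, ?_⟩
      · refine h1.comp (by fun_prop) fun w hw => ?_
        simpa using hw
      · intro w hw
        exact h2 (by simpa using hw)
      · rw [dslope_add]
    · rintro ⟨f, h1, h2, h3, rfl⟩
      refine ⟨fun w => f (w - a), ?_, ?_, ?_, ?_⟩
      · exact h1.comp (by fun_prop) fun w hw => hw
      · intro w hw
        exact h2 hw
      · simpa using h3
      · have h4 := dslope_add (fun w => f (w - a)) a p z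
        simp only [add_sub_cancel_right] at h4
        rw [← h4]
  · have hl0 : (l : ℂ) ≠ 0 := by exact_mod_cast hl.ne'
    unfold qn
    rw [← smul_eq_mul (l⁻¹) (sSup _), ← Real.sSup_smul_of_nonneg (inv_nonneg.2 hl.le)]
    congr 1
    ext x
    rw [Set.mem_smul_set]
    constructor
    · rintro ⟨f, h1, h2, h3, rfl⟩
      refine ⟨‖dslope (fun w => f (l * w)) p z‖, ⟨fun w => f (l * w), ?_, ?_, h3, rfl⟩, ?_⟩
      · refine h1.comp (by fun_prop) fun w hw => ?_
        rw [Set.mem_ofPred_eq, inv_mul_cancel_left₀ hl0]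
        exact hw
      · intro w hw
        refine h2 ?_
        rw [Set.mem_ofPred_eq, inv_mul_cancel_left₀ hl0]
        exact hw
      · rw [dslope_mul f hl0, norm_mul, Complex.norm_real, Real.norm_of_nonneg hl.le, smul_eq_mul,
          inv_mul_cancel_left₀ hl.ne']
    · rintro ⟨y, ⟨f, h1, h2, h3, rfl⟩, rfl⟩
      refine ⟨fun w => f ((l : ℂ)⁻¹ * w), ?_, ?_, ?_, ?_⟩
      · exact h1.comp (by fun_prop) fun w hw => hw
      · intro w hw
        exact h2 hw
      · simp only [inv_mul_cancel_left₀ hl0]
        exact h3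
      · have h4 := dslope_mul (fun w => f ((l : ℂ)⁻¹ * w)) hl0 p z
        simp only [inv_mul_cancel_left₀ hl0] at h4
        rw [h4, norm_mul, Complex.norm_real, Real.norm_of_nonneg hl.le, smul_eq_mul,
          inv_mul_cancel_left₀ hl.ne']

end Pool.Agent.Q162.HM
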